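import Pool.Agent.Y672.DM.Asm

/-!
# MP_5f72fe_nt: a cuspidal representation of `PGL₂` all of whose quadratic twists vanish at the centre

There is a Hecke–Maass cusp form `u` of weight `0` and trivial character on `Γ₀(25)` (so it generates
an irreducible cuspidal automorphic representation `π'` of `PGL₂(𝔸_ℚ)`) such that
`L(1/2, π' ⊗ χ) = 0` for every quadratic Dirichlet character `χ`.  So `N_{π'}(x) = 0` for all `x`, and
there is no `c > 0` with `N_{π'}(x) ≥ c x` for all large `x`.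
-/

set_option autoImplicit false

open UpperHalfPlane MatrixGroups Filter Topology
open scoped ContDiff Laplacian

namespace Pool.Agent.Results.MP_5f72fe_nt.DihedralMaass

open Pool.Agent.Y672.DM

theorem result : ∃ (t : ℝ) (a : ℕ → ℂ) (u : ℂ → ℂ), 0 < t ∧ IsHeckeMaassCuspForm 25 t a u ∧
      (∀ z : ℍ, u (-1 / (25 * (z : ℂ))) = - u z) ∧
      (∀ n : ℕ, 5 ∣ n → a n = 0) ∧
      (∀ (m : ℕ) [NeZero m] (χ : DirichletCharacter ℂ m), χ.IsPrimitive → χ ^ 2 = 1 →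
        ∃ L : ℂ → ℂ, Differentiable ℂ L ∧
          (∀ s : ℂ, 1 < s.re → HasSum (fun n : ℕ => a n * χ n * (n : ℂ) ^ (-s)) (L s)) ∧
          (∀ s : ℂ, 1 < s.re → HasProd (fun p : Nat.Primes => (1 - a p * χ p * (p : ℂ) ^ (-s) +
            (if (p : ℕ) = 5 then 0 else χ p ^ 2 * (p : ℂ) ^ (-2 * s)))⁻¹) (L s)) ∧
          L (1 / 2) = 0) ∧
      (∀ x : ℝ, cntNonzero a x = 0) ∧
      ¬ ∃ c : ℝ, 0 < c ∧ ∀ᶠ x : ℝ in atTop, c * x ≤ cntNonzero a x := by
  obtain ⟨t, a, u, h1, h2, h3, h4, h5, h6, -, -⟩ := main_thm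
  refine ⟨t, a, u, h1, h2, h3, h4, h5, h6, ?_⟩
  rintro ⟨c, hc, hx⟩
  obtain ⟨x, hx1, hx2⟩ := (hx.and (eventually_gt_atTop 0)).exists
  rw [h6 x] at hx1
  have : 0 < c * x := mul_pos hc hx2
  norm_num at hx1
  linarith

end Pool.Agent.Results.MP_5f72fe_nt.DihedralMaass
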